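import Pool.Agent.Lib.MP_ab8df0_nt.T.B21b.R0
import Pool.Agent.Lib.MP_ab8df0_nt.T.B21b.R1
import Pool.Agent.Lib.MP_ab8df0_nt.T.B21b.R2

/-! The result of the computation. -/

set_option maxRecDepth 100000

namespace Pool.Agent.Lib.MP_ab8df0_nt.T.B21b

open Pool.Agent.Lib.MP_ab8df0_nt.B Pool.Agent.Lib.MP_ab8df0_nt.P

theorem rela {K : Type} [Field K] [NumberField K] {a : K} {pl : List (Place K)} {ph : List (K →+* ℝ)}
    {w : List (IsDedekindDomain.HeightOneSpectrum (NumberField.RingOfIntegers K))}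
    (hP : Pack K (FDL2.pick [1, 2, 0]) a pl ph w) : cval a vs 15 = ((-2) * cval a vs 43) := by
  have h : (cval a vs 15 + (-((((-2 : ℤ) : K) * cval a vs 43)))) = 0 :=
    hP.rel vs (.add (.var 15) (.neg (.mul (.num (-2)) (.var 43)))) (by decide +kernel)
  have h0 : cval a vs 0 = a := by simp [cval, vs, ev]
  try rw [h0] at h
  try push_cast at h
  linear_combination h

theorem relb {K : Type} [Field K] [NumberField K] {a : K} {pl : List (Place K)} {ph : List (K →+* ℝ)}
    {w : List (IsDedekindDomain.HeightOneSpectrum (NumberField.RingOfIntegers K))}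
    (hP : Pack K (FDL2.pick [1, 2, 0]) a pl ph w) : cval a vs 16 = (-(((cval a vs 43) ^ 2))) := by
  have h : (cval a vs 16 + (-((-(((cval a vs 43) ^ 2)))))) = 0 :=
    hP.rel vs (.add (.var 16) (.neg (.neg (.sq (.var 43))))) (by decide +kernel)
  have h0 : cval a vs 0 = a := by simp [cval, vs, ev]
  try rw [h0] at h
  try push_cast at h
  linear_combination h

theorem relD {K : Type} [Field K] [NumberField K] {a : K} {pl : List (Place K)} {ph : List (K →+* ℝ)}
    {w : List (IsDedekindDomain.HeightOneSpectrum (NumberField.RingOfIntegers K))}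
    (hP : Pack K (FDL2.pick [1, 2, 0]) a pl ph w) : cval a vs 43 = (3 * (cval a vs 42 * ((1) ^ 2))) := by
  have h : (cval a vs 43 + (-((((3 : ℤ) : K) * (cval a vs 42 * ((((1 : ℤ) : K)) ^ 2)))))) = 0 :=
    hP.rel vs (.add (.var 43) (.neg (.mul (.num 3) (.mul (.var 42) (.sq (.num 1)))))) (by decide +kernel)
  have h0 : cval a vs 0 = a := by simp [cval, vs, ev]
  try rw [h0] at h
  try push_cast at h
  linear_combination h

theorem relr {K : Type} [Field K] [NumberField K] {a : K} {pl : List (Place K)} {ph : List (K →+* ℝ)}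
    {w : List (IsDedekindDomain.HeightOneSpectrum (NumberField.RingOfIntegers K))}
    (hP : Pack K (FDL2.pick [1, 2, 0]) a pl ph w) : cval a vs 41 = (2 * cval a vs 61) := by
  have h : (cval a vs 41 + (-((((2 : ℤ) : K) * cval a vs 61)))) = 0 :=
    hP.rel vs (.add (.var 41) (.neg (.mul (.num 2) (.var 61)))) (by decide +kernel)
  have h0 : cval a vs 0 = a := by simp [cval, vs, ev]
  try rw [h0] at h
  try push_cast at h
  linear_combination h

theorem relG0 {K : Type} [Field K] [NumberField K] {a : K} {pl : List (Place K)} {ph : List (K →+* ℝ)}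
    {w : List (IsDedekindDomain.HeightOneSpectrum (NumberField.RingOfIntegers K))}
    (hP : Pack K (FDL2.pick [1, 2, 0]) a pl ph w) : (cval a vs 46 * (3 + ((-2) * cval a vs 40))) = (3 - ((-2) * cval a vs 40)) := by
  have h : ((cval a vs 46 * (((3 : ℤ) : K) + (((-2 : ℤ) : K) * cval a vs 40))) + (-((((3 : ℤ) : K) + (-((((-2 : ℤ) : K) * cval a vs 40))))))) = 0 :=
    hP.rel vs (.add (.mul (.var 46) (.add (.num 3) (.mul (.num (-2)) (.var 40)))) (.neg (.add (.num 3) (.neg (.mul (.num (-2)) (.var 40)))))) (by decide +kernel)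
  have h0 : cval a vs 0 = a := by simp [cval, vs, ev]
  try rw [h0] at h
  try push_cast at h
  linear_combination h

theorem relE0 {K : Type} [Field K] [NumberField K] {a : K} {pl : List (Place K)} {ph : List (K →+* ℝ)}
    {w : List (IsDedekindDomain.HeightOneSpectrum (NumberField.RingOfIntegers K))}
    (hP : Pack K (FDL2.pick [1, 2, 0]) a pl ph w) : ((cval a vs 41) ^ 2) = (1 + (3 * ((cval a vs 46) ^ 2))) := by
  have h : (((cval a vs 41) ^ 2) + (-((((1 : ℤ) : K) + (((3 : ℤ) : K) * ((cval a vs 46) ^ 2)))))) = 0 :=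
    hP.rel vs (.add (.sq (.var 41)) (.neg (.add (.num 1) (.mul (.num 3) (.sq (.var 46)))))) (by decide +kernel)
  have h0 : cval a vs 0 = a := by simp [cval, vs, ev]
  try rw [h0] at h
  try push_cast at h
  linear_combination h

theorem relxi0 {K : Type} [Field K] [NumberField K] {a : K} {pl : List (Place K)} {ph : List (K →+* ℝ)}
    {w : List (IsDedekindDomain.HeightOneSpectrum (NumberField.RingOfIntegers K))}
    (hP : Pack K (FDL2.pick [1, 2, 0]) a pl ph w) : ((cval a vs 47) ^ 2) = (1 + cval a vs 41) := by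
  have h : (((cval a vs 47) ^ 2) + (-((((1 : ℤ) : K) + cval a vs 41)))) = 0 :=
    hP.rel vs (.add (.sq (.var 47)) (.neg (.add (.num 1) (.var 41)))) (by decide +kernel)
  have h0 : cval a vs 0 = a := by simp [cval, vs, ev]
  try rw [h0] at h
  try push_cast at h
  linear_combination h

theorem relx0 {K : Type} [Field K] [NumberField K] {a : K} {pl : List (Place K)} {ph : List (K →+* ℝ)}
    {w : List (IsDedekindDomain.HeightOneSpectrum (NumberField.RingOfIntegers K))}
    (hP : Pack K (FDL2.pick [1, 2, 0]) a pl ph w) : cval a vs 44 = (cval a vs 43 * (1 + cval a vs 47)) := by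
  have h : (cval a vs 44 + (-((cval a vs 43 * (((1 : ℤ) : K) + cval a vs 47))))) = 0 :=
    hP.rel vs (.add (.var 44) (.neg (.mul (.var 43) (.add (.num 1) (.var 47))))) (by decide +kernel)
  have h0 : cval a vs 0 = a := by simp [cval, vs, ev]
  try rw [h0] at h
  try push_cast at h
  linear_combination h

theorem relG1 {K : Type} [Field K] [NumberField K] {a : K} {pl : List (Place K)} {ph : List (K →+* ℝ)}
    {w : List (IsDedekindDomain.HeightOneSpectrum (NumberField.RingOfIntegers K))}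
    (hP : Pack K (FDL2.pick [1, 2, 0]) a pl ph w) : (cval a vs 51 * (4199 + ((-6202) * cval a vs 40))) = (4199 - ((-6202) * cval a vs 40)) := by
  have h : ((cval a vs 51 * (((4199 : ℤ) : K) + (((-6202 : ℤ) : K) * cval a vs 40))) + (-((((4199 : ℤ) : K) + (-((((-6202 : ℤ) : K) * cval a vs 40))))))) = 0 :=
    hP.rel vs (.add (.mul (.var 51) (.add (.num 4199) (.mul (.num (-6202)) (.var 40)))) (.neg (.add (.num 4199) (.neg (.mul (.num (-6202)) (.var 40)))))) (by decide +kernel)
  have h0 : cval a vs 0 = a := by simp [cval, vs, ev]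
  try rw [h0] at h
  try push_cast at h
  linear_combination h

theorem relE1 {K : Type} [Field K] [NumberField K] {a : K} {pl : List (Place K)} {ph : List (K →+* ℝ)}
    {w : List (IsDedekindDomain.HeightOneSpectrum (NumberField.RingOfIntegers K))}
    (hP : Pack K (FDL2.pick [1, 2, 0]) a pl ph w) : ((cval a vs 50) ^ 2) = (1 + (3 * ((cval a vs 51) ^ 2))) := by
  have h : (((cval a vs 50) ^ 2) + (-((((1 : ℤ) : K) + (((3 : ℤ) : K) * ((cval a vs 51) ^ 2)))))) = 0 :=
    hP.rel vs (.add (.sq (.var 50)) (.neg (.add (.num 1) (.mul (.num 3) (.sq (.var 51)))))) (by decide +kernel)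
  have h0 : cval a vs 0 = a := by simp [cval, vs, ev]
  try rw [h0] at h
  try push_cast at h
  linear_combination h

theorem relxi1 {K : Type} [Field K] [NumberField K] {a : K} {pl : List (Place K)} {ph : List (K →+* ℝ)}
    {w : List (IsDedekindDomain.HeightOneSpectrum (NumberField.RingOfIntegers K))}
    (hP : Pack K (FDL2.pick [1, 2, 0]) a pl ph w) : ((cval a vs 52) ^ 2) = (1 + cval a vs 50) := by
  have h : (((cval a vs 52) ^ 2) + (-((((1 : ℤ) : K) + cval a vs 50)))) = 0 :=
    hP.rel vs (.add (.sq (.var 52)) (.neg (.add (.num 1) (.var 50)))) (by decide +kernel)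
  have h0 : cval a vs 0 = a := by simp [cval, vs, ev]
  try rw [h0] at h
  try push_cast at h
  linear_combination h

theorem relx1 {K : Type} [Field K] [NumberField K] {a : K} {pl : List (Place K)} {ph : List (K →+* ℝ)}
    {w : List (IsDedekindDomain.HeightOneSpectrum (NumberField.RingOfIntegers K))}
    (hP : Pack K (FDL2.pick [1, 2, 0]) a pl ph w) : cval a vs 48 = (cval a vs 43 * (1 + cval a vs 52)) := by
  have h : (cval a vs 48 + (-((cval a vs 43 * (((1 : ℤ) : K) + cval a vs 52))))) = 0 :=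
    hP.rel vs (.add (.var 48) (.neg (.mul (.var 43) (.add (.num 1) (.var 52))))) (by decide +kernel)
  have h0 : cval a vs 0 = a := by simp [cval, vs, ev]
  try rw [h0] at h
  try push_cast at h
  linear_combination h

theorem core {K : Type} [Field K] [NumberField K] {a : K} {pl : List (Place K)} {ph : List (K →+* ℝ)}
    {w : List (IsDedekindDomain.HeightOneSpectrum (NumberField.RingOfIntegers K))}
    (hP : Pack K (FDL2.pick [1, 2, 0]) a pl ph w) {G : Prop} (t g E xi x y dG0 dE0 dxi0 dx0 dG1 dE1 dxi1 dx1 : K)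
    (hdisc : Q2 3 (t - ((2 : ℤ) : K)))
    (hG : g = ((2 * ((1 + (t * cval a vs 40)))⁻¹) - 1))
    (hE : E ^ 2 = (1 + (3 * ((g) ^ 2))))
    (hclsE : IsSquare (1 + (3 * ((g) ^ 2))))
    (hxi : xi ^ 2 = (1 + E))
    (hclsR : IsSquare (cval a vs 41 * E))
    (hclsX : IsSquare (1 + E))
    (hcls : IsSquare ((1 + xi) * cval a vs 42))
    (hx : x = (cval a vs 43 * (1 + xi)))
    (hon : On (cval a vs 15) (cval a vs 16) x y)
    (hdG0 : ((1 + (t * cval a vs 40)) * (3 + ((-2) * cval a vs 40))) * dG0 = ((-2) * cval a vs 40))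
    (hdE0 : (E + cval a vs 41) * dE0 = (3 * ((g + cval a vs 46) * dG0)))
    (hdxi0 : (xi + cval a vs 47) * dxi0 = dE0)
    (hdx0 : dx0 = (cval a vs 43 * dxi0))
    (hdq0n : (3 * t - (-2)) ≠ 0) (hdq0 : x - cval a vs 44 = (3 * t - (-2)) * dx0)
    (hdG1 : ((1 + (t * cval a vs 40)) * (4199 + ((-6202) * cval a vs 40))) * dG1 = ((-2) * cval a vs 40))
    (hdE1 : (E + cval a vs 50) * dE1 = (3 * ((g + cval a vs 51) * dG1)))
    (hdxi1 : (xi + cval a vs 52) * dxi1 = dE1)
    (hdx1 : dx1 = (cval a vs 43 * dxi1))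
    (hdq1n : (4199 * t - (-6202)) ≠ 0) (hdq1 : x - cval a vs 48 = (4199 * t - (-6202)) * dx1) :
    G := by
  refine hP.cover (fr := [t, g, E, xi, x, y, dG0, dE0, dxi0, dx0, dG1, dE1, dxi1, dx1]) (M := M) (cs := [[ce (-1) 136 62 1 0x278345d60360a20d], [ce (-1) 136 62 1 0x201edd868c749dd3], []]) rfl auto
    (l := [(2, 4), (26, 6), (58, 6), (10, 5)]) (by decide) ?_ hdisc fun tt kk hq => ?_
  · exact List.forall_mem_cons.2 ⟨⟨_, r0⟩, List.forall_mem_cons.2 ⟨⟨_, r1⟩, List.forall_mem_cons.2 ⟨⟨_, r2⟩, List.forall_mem_cons.2 ⟨⟨_, r3⟩, fun _ h => absurd h List.not_mem_nil⟩⟩⟩⟩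
  · refine List.forall_mem_cons.2 ⟨?_, List.forall_mem_cons.2 ⟨?_, List.forall_mem_cons.2 ⟨?_, List.forall_mem_cons.2 ⟨?_, List.forall_mem_cons.2 ⟨?_, List.forall_mem_cons.2 ⟨?_, List.forall_mem_cons.2 ⟨?_, List.forall_mem_cons.2 ⟨?_, List.forall_mem_cons.2 ⟨?_, List.forall_mem_cons.2 ⟨?_, List.forall_mem_cons.2 ⟨?_, List.forall_mem_cons.2 ⟨?_, List.forall_mem_cons.2 ⟨?_, List.forall_mem_cons.2 ⟨?_, List.forall_mem_cons.2 ⟨?_, List.forall_mem_cons.2 ⟨?_, List.forall_mem_cons.2 ⟨?_, List.forall_mem_cons.2 ⟨?_, List.forall_mem_cons.2 ⟨?_, List.forall_mem_cons.2 ⟨?_, fun _ h => absurd h List.not_mem_nil⟩⟩⟩⟩⟩⟩⟩⟩⟩⟩⟩⟩⟩⟩⟩⟩⟩⟩⟩⟩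
    · exact hq
    · show g = ((((2 : ℤ) : K) * ((((1 : ℤ) : K) + (t * cval a vs 40)))⁻¹) + (-(((1 : ℤ) : K))))
      try push_cast
      linear_combination hG
    · show E ^ 2 = (((1 : ℤ) : K) + (((3 : ℤ) : K) * ((g) ^ 2)))
      try push_cast
      linear_combination hE
    · exact span_of_isSquare (x := (((1 : ℤ) : K) + (((3 : ℤ) : K) * ((g) ^ 2)))) ((by push_cast; ring : (((1 : ℤ) : K) + (((3 : ℤ) : K) * ((g) ^ 2))) = (1 + (3 * ((g) ^ 2)))) ▸ hclsE)
    · show xi ^ 2 = (((1 : ℤ) : K) + E)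
      try push_cast
      linear_combination hxi
    · exact span_of_isSquare (x := (cval a vs 41 * E)) ((by push_cast; ring : (cval a vs 41 * E) = (cval a vs 41 * E)) ▸ hclsR)
    · exact span_of_isSquare (x := (((1 : ℤ) : K) + E)) ((by push_cast; ring : (((1 : ℤ) : K) + E) = (1 + E)) ▸ hclsX)
    · exact span_of_isSquare (x := ((((1 : ℤ) : K) + xi) * cval a vs 42)) ((by push_cast; ring : ((((1 : ℤ) : K) + xi) * cval a vs 42) = ((1 + xi) * cval a vs 42)) ▸ hcls)
    · show x = (cval a vs 43 * (((1 : ℤ) : K) + xi))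
      try push_cast
      linear_combination hx
    · exact hon
    · show ((((1 : ℤ) : K) + (t * cval a vs 40)) * (((3 : ℤ) : K) + (((-2 : ℤ) : K) * cval a vs 40))) * dG0 = (((-2 : ℤ) : K) * cval a vs 40)
      try push_cast
      linear_combination hdG0
    · show (E + cval a vs 41) * dE0 = (((3 : ℤ) : K) * ((g + cval a vs 46) * dG0))
      try push_cast
      linear_combination hdE0
    · show (xi + cval a vs 47) * dxi0 = dE0
      try push_cast
      linear_combination hdxi0
    · show dx0 = (cval a vs 43 * dxi0)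
      try push_cast
      linear_combination hdx0
    · show (((3 : ℤ) : K) * t - ((-2 : ℤ) : K)) ≠ 0 ∧ x - cval a vs 44 = (((3 : ℤ) : K) * t - ((-2 : ℤ) : K)) * dx0
      try push_cast
      exact ⟨by simpa using hdq0n, by linear_combination hdq0⟩
    · show ((((1 : ℤ) : K) + (t * cval a vs 40)) * (((4199 : ℤ) : K) + (((-6202 : ℤ) : K) * cval a vs 40))) * dG1 = (((-2 : ℤ) : K) * cval a vs 40)
      try push_cast
      linear_combination hdG1
    · show (E + cval a vs 50) * dE1 = (((3 : ℤ) : K) * ((g + cval a vs 51) * dG1))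
      try push_cast
      linear_combination hdE1
    · show (xi + cval a vs 52) * dxi1 = dE1
      try push_cast
      linear_combination hdxi1
    · show dx1 = (cval a vs 43 * dxi1)
      try push_cast
      linear_combination hdx1
    · show (((4199 : ℤ) : K) * t - ((-6202 : ℤ) : K)) ≠ 0 ∧ x - cval a vs 48 = (((4199 : ℤ) : K) * t - ((-6202 : ℤ) : K)) * dx1
      try push_cast
      exact ⟨by simpa using hdq1n, by linear_combination hdq1⟩

end Pool.Agent.Lib.MP_ab8df0_nt.T.B21b
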