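import Pool.Agent.Lib.MP_ab8df0_nt.B.Auto2
import Pool.Agent.Lib.MP_ab8df0_nt.P.L2D

/-! Constants and hypotheses. -/

set_option maxRecDepth 100000

namespace Pool.Agent.Lib.MP_ab8df0_nt.T.B21b

open Pool.Agent.Lib.MP_ab8df0_nt.B Pool.Agent.Lib.MP_ab8df0_nt.P

def vs : Cs := [([0, 1], 1), ([], 1), ([], 1), ([], 1), ([], 1), ([], 1), ([], 1), ([], 1), ([], 1), ([], 1), ([], 1), ([], 1), ([], 1), ([], 1), ([], 1), 
  ([-142, 48, -272, -220, 642, -128, -944, 414, 392, -344, 54, -22], 3),
  ([35225, -19358, 438189, 400334, -1290608, 710610, 1461718, -805276, -626424, 987214, -117091, 64596], 1),
  ([284, -96, 544, 440, -1284, 256, 1888, -828, -784, 688, -108, 44], 3),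
  ([-281800, 154864, -3505512, -3202672, 10324864, -5684880, -11693744, 6442208, 5011392, -7897712, 936728, -516768], 1),
  ([93, 46, 1045, 2622, -832, -2311, 2109, 2585, -871, -609, 4, -56], 1),
  ([-65, -49, -809, -1861, 631, 1550, -1588, -1895, 602, 433, -4, 40], 1),
  ([-1806, -13845, -41172, -214518, -433806, -118173, 155886, -227850, -448752, -155697, -19506, -11418], 1),
  ([5, 55, 98, 724, 1805, 664, -743, 662, 1750, 629, 73, 47], 1),
  ([-1], 1),
  ([32, 111, 612, 1864, 1582, -307, 40, 1926, 1608, 437, 86, 28], 1),
  ([-1809, 6318, -10440, 54090, 308763, 145620, -176724, 51984, 311643, 119016, 12096, 9126], 1),
  ([7392, 5928, 93036, 208653, -97206, -196212, 192480, 210189, -98148, -60576, -678, -5415], 1),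
  ([-1626, -2253, -21489, -57783, -13056, 32775, -26139, -59001, -10056, 2253, -1209, 363], 1),
  ([-2166, -1173, -25827, -51366, 51870, 63267, -69609, -53628, 52872, 26481, 1203, 2244], 1),
  ([29408208462, -1431377839998, -1855211994909, -18605599020945, -53961070663656, -19628966547702, 24551625464091, -20136165122907, -55614446648370, -20113125346908, -2307513132531, -1505465227179], 1),
  ([41372451, 23831496, 491538456, 999274806, -914896701, -1215534114, 1199952468, 986543064, -924528249, -469459962, -20041668, -39872898], 1),
  ([894, -219, 8643, 13101, -40956, -34275, 38445, 11991, -43716, -18285, -1461, -1473], 1),
  ([65, 49, 809, 1861, -631, -1550, 1588, 1895, -602, -433, 4, -40], 1),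
  ([969867, 849555, 11986272, 27341739, -10445463, -23891895, 24039450, 27654669, -10340271, -6926823, 1728, -631341], 1),
  ([-5, -55, -98, -724, -1805, -664, 743, -662, -1750, -629, -73, -47], 1),
  ([-32, -111, -612, -1864, -1582, 307, -40, -1926, -1608, -437, -86, -28], 1),
  ([-81729, -57699, -986040, -2137347, 1382697, 2273211, -2201418, -2067417, 1463697, 792747, 24840, 68661], 1),
  ([114069556935, 311343583545, 1730363701311, 6032344245102, 6531976823823, -140585834061, -755040573279, 6111035050770, 6647680972989, 2022671057301, 327522589641, 138179515140], 1),
  ([-59601339, -34947774, -710413173, -1449776637, 1275485859, 1692718560, -1754583201, -1466411445, 1280245257, 660125538, 26539245, 56332017], 1),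
  ([-10005363, -23796666, -146206863, -482061861, -441465957, 62165556, -4930875, -516065985, -462077055, -130980726, -24030189, -8560971], 1),
  ([4, -45, 131, 366, -59, -285, 222, 331, -43, -50, 3, -5], 12),
  ([42, -70, 643, -336, -595, 910, 642, -938, 257, 324, -17, 26], 3),
  ([71, -24, 136, 110, -321, 64, 472, -207, -196, 172, -27, 11], 9),
  ([71, -24, 136, 110, -321, 64, 472, -207, -196, 172, -27, 11], 3),
  ([203, -210, 1462, -1522, -372, 2422, 133, -2298, 1952, -248, 114, 2], 3),
  ([-8140, 4868, -102256, -76039, 276623, -162634, -315905, 184699, 125287, -211088, 24634, -13901], 1),
  ([69, -139, 1045, -606, -709, 1429, 498, -995, 395, 354, -11, 29], 9),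
  ([22, -17, 202, -77, -287, 64, 275, -154, -139, -13, -10, -1], 9),
  ([6279187, -92400970, 455230686, -455647082, -243726196, 388229142, 133570061, -416172818, 117911736, -72015616, 7661122, -2534526], 2403075),
  ([-557170971274, 461437507583, -6673844398429, -4835297593093, 17928097085144, -11001409359601, -19814184419903, 12048762408868, 7530045045886, -13336262243636, 1536135328051, -881688818534], 716917375),
  ([4045766793546, 2571817602146, 29671953445099, 5450749058688, -11504640916123, 27843102102742, 31236931189650, -13967978932898, 14906794425593, 11725349532756, -123211282793, 879952909058], 1924923151875),
  ([-2918096898939, -3359456563099, -16076799365627, 97442066214402, 16864940445899, -114523807958651, 24153695927634, 106171007329933, -24522778978789, -24262916906046, 1042299911653, -2167869751411], 5774769455625),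
  ([-7545586, -12584869, 48717062, -52011037, -2407507, 136292132, -8983085, -94171358, 86594617, 52380595, 911194, 4236019], 7209225),
  ([87, -1606, -827, 2943, -436, -4661, 585, 2296, -1057, -1335, 46, -103], 3),
  ([978, -8028, 16518, 24378, -54552, 11742, 60654, -24984, -29766, 34878, -4596, 2226], 1),
  ([3595966, -6740041, 54533733, -30480644, -37408819, 67276749, 38710364, -59549357, 21353595, 18495752, -633125, 1539945], 25392),
  ([2231139448, -3438998921, 32732137255, -10400129186, -41551258967, 50751618895, 40489292186, -46561660657, 1035146705, 27141500534, -2337581413, 1961156447], 389344),
  ([251, 737, 7040, -6940, -2968, 12257, 3967, -10271, 4864, 3256, -32, 277], 18),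
  ([3788, -3033, 35154, 11339, -71955, 53877, 81721, -55092, -26943, 56278, -6222, 3762], 6),
  ([532623054298392744142150157116520878913010731, -293508795040160911051346222085943629439158306, 5014128898124453389439516711449276387767867334, -5264389678957136798759539661189834510433533938, -1770376356223818739042294711300963438227147588, 9795527490619742044076375089218079773462914854, 1766823216242865770869429263830647492828241509, -8415517731220750365365980762690876348540774890, 4973500988493906265663633601682164177703669584, 2216339250522582728181984629207919359533877704, 69949898540302668583508311008258698821257666, 202458082020597433663372378011617499870477650], 37470171020615078594237459188800796484075403),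
  ([-2831488099230463611476244455389109811648212002391720550563497356324, -1399580734640235195508228843541024439636448900154136975835085128436, -39931792528729772660091500099912312860988617556401970994738870189136, -26213622815051766864867265448605659094825229477429629896418763091477, 106824959106026791283715691870603743218758864562204282042135726744653, -69905811357981700890544398111105296239291831530748174649069544472126, -124537907627144780866587980697192312215772603585073031582204649969795, 76140587250933021076391874022107911465497079182506865953220561129457, 48424171841291276837503862244390933334968556288698578811304025889013, -86753422814848698674550282565018768700194658823438633681174241910448, 9921726823664940354824416119904701214860460026126458074667006531342, -5731554760772273771025199701171104679134210401358321018484155745863], 14713817875856331305259306900452537725129143541658689060754198817),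
  ([42, -70, 643, -336, -595, 910, 642, -938, 257, 324, -17, 26], 6)]

def c0 : EC := ⟨15, 16, 17, 18, [19, 20, 21, 22, 23, 24, 25, 26, 27, 28, 29, 30], [31, 32, 33, 34, 35, 36, 37, 38, 39, 28]⟩

def M (t0 : ℤ) (k0 : ℕ) : List Hyp := [
  .disc 1 t0 k0,
  .eq 2 (.add (.mul (.num 2) (.inv (.add (.num 1) (.mul (.var 1) (.var 40))))) (.neg (.num 1))),
  .sqr 3 (.add (.num 1) (.mul (.num 3) (.sq (.var 2)))),
  .cls (.add (.num 1) (.mul (.num 3) (.sq (.var 2)))) [],
  .sqr 4 (.add (.num 1) (.var 3)),
  .cls (.mul (.var 41) (.var 3)) [],
  .cls (.add (.num 1) (.var 3)) [],
  .cls (.mul (.add (.num 1) (.var 4)) (.var 42)) [],
  .eq 5 (.mul (.var 43) (.add (.num 1) (.var 4))),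
  .on c0 false 5 6,
  .lin 7 (.mul (.add (.num 1) (.mul (.var 1) (.var 40))) (.add (.num 3) (.mul (.num (-2)) (.var 40)))) (.mul (.num (-2)) (.var 40)),
  .lin 8 (.add (.var 3) (.var 41)) (.mul (.num 3) (.mul (.add (.var 2) (.var 46)) (.var 7))),
  .lin 9 (.add (.var 4) (.var 47)) (.var 8),
  .eq 10 (.mul (.var 43) (.var 9)),
  .dq 5 44 1 (-2) 3 10,
  .lin 11 (.mul (.add (.num 1) (.mul (.var 1) (.var 40))) (.add (.num 4199) (.mul (.num (-6202)) (.var 40)))) (.mul (.num (-2)) (.var 40)),
  .lin 12 (.add (.var 3) (.var 50)) (.mul (.num 3) (.mul (.add (.var 2) (.var 51)) (.var 11))),
  .lin 13 (.add (.var 4) (.var 52)) (.var 12),
  .eq 14 (.mul (.var 43) (.var 13)),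
  .dq 5 48 1 (-6202) 4199 14]

def k0 : Cut := ⟨[], [], [], [[false, false, false, false, false, false, false, false, false, false, true, false], [false, false, true, false, false, false, false, false, false, false, false, false], [false, false, true, false, true, false, false, false, false, false, false, false], [false, true, false, false, false, false, false, false, false, false, false, false], [true, false, false, false, false, false, false, false, false, false, false, false], [true, false, false, false, false, true, false, false, false, false, false, false], [false, false, false, false, true, false, false, false, false, true, false, false], [true, false, false, false, false, true, true, false, false, false, false, false], [false, true, false, true, false, false, false, false, false, false, false, false], [false, false, true, false, false, false, false, true, false, false, false, false], [false, false, true, false, true, true, true, true, true, false, false, false], [false, true, false, false, true, false, true, false, false, false, false, true]], [[false, false, false, false, true, false, false, false, false, false, false, false], [false, false, false, true, false, false, false, false, false, false, false, false], [false, true, false, false, false, false, false, false, false, false, false,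 false], [false, false, false, true, false, false, false, false, true, false, false, false], [false, true, true, false, false, false, false, false, false, false, false, false], [false, false, false, false, true, true, false, false, false, false, false, false], [false, false, false, false, false, true, false, true, false, false, false, false], [false, true, false, false, false, false, false, false, false, true, false, false], [false, true, true, false, true, false, false, true, false, true, true, false], [false, true, true, false, false, false, true, false, false, false, false, false], [true, false, false, false, false, false, false, false, false, false, false, false], [false, true, true, true, false, true, false, true, false, false, false, true]]⟩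

def k1 : Cut := ⟨[0, 1], [], [[true, false, false, false, false, false, false, false, false, false, false, false], [true, false, false, true, false, false, false, false, false, false, false, false]], [[false, false, false, true, false, false, false, false, false, false, true, false], [true, false, true, false, false, false, false, false, false, false, false, false], [true, false, true, true, true, false, false, false, false, false, false, false], [true, true, false, false, false, false, false, false, false, false, false, false], [false, false, false, false, false, true, false, false, false, false, false, false], [false, true, false, true, false, false, true, false, false, false, false, false], [true, true, false, true, true, true, true, false, false, true, false, false], [true, false, false, true, true, true, false, false, false, false, false, true], [false, false, false, true, false, true, false, false, true, false, false, true], [false, false, true, false, false, false, false, true, false, false, false, false]], [[true, false, false, false, false, false, false, false, false, false, false, false], [true, false, false, false, false, true, false, false, false, false, false, false], [true, false, false, true, false, false, false, false, false, false, false, false], [true, true, false, false,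 false, false, false, false, false, false, false, false], [true, true, false, true, true, false, false, false, false, false, false, false], [false, false, false, false, false, false, true, false, false, false, false, false], [false, true, false, false, false, true, false, true, false, false, false, false], [true, false, false, true, false, false, false, false, false, false, false, true], [false, true, false, true, true, false, false, false, false, true, true, false], [false, true, false, true, true, false, true, true, true, false, false, false], [true, true, true, false, false, false, false, false, false, false, false, false], [true, false, false, true, true, false, true, false, false, true, false, false]]⟩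

def A : List AH := [
  .ec c0 5 ([-52482426710, -25532754711, -615944278714, -1203608659076, 1340534574480, 1628762539961, -1568281501906, -1186062586917, 1332079822774, 653101722068, 31997477568, 54853480003], 972) ([52482426710, 25532754711, 615944278714, 1203608659076, -1340534574480, -1628762539961, 1568281501906, 1186062586917, -1332079822774, -653101722068, -31997477568, -54853480003], 7776) k0 k1,
  .on c0 false 44 45,
  .on c0 false 48 49,
  .on c0 true 53 54,
  .on c0 false 55 56,
  .on c0 false 57 58,
  .on c0 false 59 60]

theorem auto : (baseOk 14 vs && A.all (AH.ok (FDL2.pick [1, 2, 0]) 14 vs)) = true := by decide +kernel

end Pool.Agent.Lib.MP_ab8df0_nt.T.B21b
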